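import Pool.Agent.Q86.Gap5

/-!
# Gorenstein section rings: zeros of the Hilbert polynomial, and complete intersections

Let `S` be a Gorenstein section ring with `a(S) = -b < 0`, in every characteristic and without any
condition on the singularities. We prove lower bounds for `dim S_n` from the position of the zeros of
the Hilbert polynomial, or of the numerator of the Hilbert series. If all zeros `ρ` of the Hilbert
polynomial lie in the canonical strip `-b ≤ Re ρ ≤ 0` (or if only `Re (ρ (ρ + b)) ≤ (b + 1) / 2`) then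
`dim S_n ≥ (n + b - 1 choose n)` for all `n`, as for a polynomial ring in `b` variables. If the
Hilbert series is that of a weighted complete intersection, for example if `S` is a complete
intersection, then `dim S_1 ≥ b`; so a complete intersection satisfies the non-vanishing.

Proof: with `w = ρ (ρ + b)` one has `P(n)² = ∏ |w - n (n + b)| / |w|` over all zeros `ρ`; every
factor is at least `1` and the trivial zeros `-1, ..., -(b - 1)` contribute
`(n + b - 1 choose n)²`. For the numerator `R` the coefficient `R_1 = dim S_1 - d` is minus the sum of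
the `a + d` zeros.
-/

set_option autoImplicit false

universe u

namespace Pool.Agent.Results.MP_954e53_ag.CanonicalStrip

open Polynomial

variable {k S : Type u} [Field k] [CommRing S] [Algebra k S] (𝒜 : ℕ → Submodule k S)

/-- The sheaf `O(1)` is invertible on `Proj S`: for every homogeneous prime ideal which does not
contain all elements of positive degree there are elements of two consecutive degrees outside of it.
(This holds if `S` is the section ring of an ample invertible sheaf `L`, since `L ^ n` is generated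
by its sections for large `n`.) -/
def IsInvertible [GradedAlgebra 𝒜] : Prop :=
  ∀ 𝔭 : Ideal S, 𝔭.IsPrime → 𝔭.IsHomogeneous 𝒜 → (∃ n, 0 < n ∧ ∃ x ∈ 𝒜 n, x ∉ 𝔭) →
    ∃ n, (∃ x ∈ 𝒜 n, x ∉ 𝔭) ∧ ∃ y ∈ 𝒜 (n + 1), y ∉ 𝔭

/-- The graded ring `S` is Gorenstein: the elements `θ 1, ..., θ d`, homogeneous of positive degrees
`e 1, ..., e d`, form a homogeneous system of parameters (the ideal `(θ)` contains all elements of
large degree) and a regular sequence, and the socle of `S / (θ)` is a line, generated by the class of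
an element of degree `σ`. So `d` is the dimension of `S` and `σ - ∑ e j` is the `a`-invariant. -/
structure IsGorenstein {d : ℕ} (e : Fin d → ℕ) (θ : Fin d → S) (σ : ℕ) : Prop where
  pos : ∀ j, 0 < e j
  mem : ∀ j, θ j ∈ 𝒜 (e j)
  regular : ∀ (j : Fin d) (x : S), θ j * x ∈ Ideal.span (θ '' {i | i < j}) →
    x ∈ Ideal.span (θ '' {i | i < j})
  parameters : ∃ N, ∀ n, N ≤ n → ∀ x ∈ 𝒜 n, x ∈ Ideal.span (Set.range θ)
  socle : ∃ s ∈ 𝒜 σ, s ∉ Ideal.span (Set.range θ) ∧
    ∀ x, (∀ n, 0 < n → ∀ y ∈ 𝒜 n, x * y ∈ Ideal.span (Set.range θ)) ↔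
      ∃ c : k, x - c • s ∈ Ideal.span (Set.range θ)

/-- `P` is the Hilbert polynomial: `dim S_n = P(n)` for all large `n`. -/
def IsHilbertPolynomial (P : ℝ[X]) : Prop :=
  ∃ N : ℕ, ∀ n : ℕ, N ≤ n → (Module.finrank k (𝒜 n) : ℝ) = P.eval (n : ℝ)

/-- The Hilbert series `∑ dim S_n t ^ n`. -/
noncomputable def hilbertSeries : PowerSeries ℤ :=
  PowerSeries.mk fun n => (Module.finrank k (𝒜 n) : ℤ)

/-- Let `S = ⨁ S_n` be a noetherian graded domain over an arbitrary field `k = S_0`, with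
finite-dimensional `S_n`, such that `O(1)` is invertible on `Proj S`, for example the section ring
of an ample invertible sheaf on a projective variety. Suppose that `S` is Gorenstein of dimension `d`
with `a`-invariant `-b < 0`. Then:
(1) if all complex zeros `ρ` of the Hilbert polynomial satisfy `Re (ρ (ρ + b)) ≤ (b + 1) / 2` then
`dim S_n ≥ (n + b - 1 choose n)` for all `n`;
(2) the same holds if all zeros lie in the strip `-b ≤ Re ρ ≤ 0`;
(3) if `R` is the numerator of the Hilbert series `R(t) / (1 - t) ^ d` and all complex zeros of `R`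
have real part at most `1` then `dim S_1 ≥ b`;
(4) if the Hilbert series is `∏ (1 - t ^ B_j) / ∏ (1 - t ^ A_i)`, as for a complete intersection, then
`dim S_1 ≥ b`. -/
theorem result (k S : Type u) [Field k] [CommRing S] [IsDomain S] [IsNoetherianRing S]
    [Algebra k S] (𝒜 : ℕ → Submodule k S) [GradedAlgebra 𝒜]
    (h0 : Module.finrank k (𝒜 0) = 1) (hfin : ∀ n, Module.Finite k (𝒜 n))
    (hL : IsInvertible 𝒜) (d : ℕ) (e : Fin d → ℕ) (θ : Fin d → S) (σ : ℕ)
    (hG : IsGorenstein 𝒜 e θ σ) (b : ℕ) (hb : 0 < b) (hσ : σ + b = ∑ j, e j) :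
    (∀ P : ℝ[X], IsHilbertPolynomial 𝒜 P →
      (∀ ρ : ℂ, aeval ρ P = 0 → (ρ * (ρ + b)).re ≤ ((b : ℝ) + 1) / 2) →
      ∀ n : ℕ, (n + b - 1).choose n ≤ Module.finrank k (𝒜 n)) ∧
    (∀ P : ℝ[X], IsHilbertPolynomial 𝒜 P →
      (∀ ρ : ℂ, aeval ρ P = 0 → -(b : ℝ) ≤ ρ.re ∧ ρ.re ≤ 0) →
      ∀ n : ℕ, (n + b - 1).choose n ≤ Module.finrank k (𝒜 n)) ∧
    (∀ R : ℤ[X], hilbertSeries 𝒜 * (1 - PowerSeries.X) ^ d = (R : PowerSeries ℤ) →
      (∀ ζ : ℂ, aeval ζ R = 0 → ζ.re ≤ 1) → b ≤ Module.finrank k (𝒜 1)) ∧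
    (∀ (m c : ℕ) (A : Fin m → ℕ) (B : Fin c → ℕ), (∀ i, 0 < A i) → (∀ j, 0 < B j) →
      hilbertSeries 𝒜 * ∏ i, (1 - PowerSeries.X ^ A i) = ∏ j, (1 - PowerSeries.X ^ B j) →
      b ≤ Module.finrank k (𝒜 1)) := by
  classical
  obtain ⟨N, hN⟩ := hG.parameters
  obtain ⟨s, hs, hsI, hsoc⟩ := hG.socle
  have hd : Pool.Agent.Q86.GS.chain θ d = Ideal.span (Set.range θ) := by
    unfold Pool.Agent.Q86.GS.chain
    have : {i : Fin d | (i : ℕ) < d} = Set.univ := by
      ext i
      simp
    rw [this, Set.image_univ]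
  have hreg : ∀ (j : Fin d) (x : S), θ j * x ∈ Pool.Agent.Q86.GS.chain θ j →
      x ∈ Pool.Agent.Q86.GS.chain θ j := hG.regular
  have hθ0 : ∀ j, θ j ≠ 0 := by
    intro j hj
    apply hsI
    have h1 : (1 : S) ∈ Pool.Agent.Q86.GS.chain θ j := hreg j 1 (by
      rw [hj, zero_mul]
      exact Ideal.zero_mem _)
    have h2 : Pool.Agent.Q86.GS.chain θ j ≤ Ideal.span (Set.range θ) :=
      Ideal.span_mono (Set.image_subset_range _ _)
    have h3 := Ideal.mul_mem_left _ s (h2 h1)
    rwa [mul_one] at h3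
  obtain ⟨P', N', hP⟩ := Pool.Agent.Q86.GS.evPoly_hf hfin hL ⊥ (Ideal.IsHomogeneous.bot 𝒜)
  have hP' : ∀ n, N' ≤ n → (Module.finrank k (𝒜 n) : ℚ) = P'.eval (n : ℚ) := by
    intro n hn
    rw [← hP n hn, Pool.Agent.Q86.GS.hf_bot, Int.cast_natCast]
  rw [← hd] at hN hsI hsoc
  obtain ⟨R, hR1, hR2, hR3, hR4⟩ := Pool.Agent.Q86.GS.exists_numerator hfin h0 hG.pos hG.mem hθ0
    hreg hN hs hsI (fun x hx => (hsoc x).1 hx) P' N' hP'
  set H : ℕ → ℤ := fun n => (Module.finrank k (𝒜 n) : ℤ) with hH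
  have hHS : hilbertSeries 𝒜 = PowerSeries.mk H := rfl
  have hc : R.natDegree + b = d := by omega
  obtain ⟨D, rfl⟩ : ∃ D, d = D + 1 := ⟨d - 1, by omega⟩
  obtain ⟨b', rfl⟩ : ∃ b', b = b' + 1 := ⟨b - 1, by omega⟩
  have hcD : R.natDegree ≤ D := by omega
  have hH0 : H 0 = 1 := by
    change ((Module.finrank k (𝒜 0) : ℕ) : ℤ) = 1
    rw [h0]
    rfl
  have hR0 : R.coeff 0 = 1 := by
    have h1 := Pool.Agent.Q86.Gap.coeff_eq D H R hR1 0
    rw [hH0] at h1
    simpa using h1.symm
  have hnat := Pool.Agent.Q86.Gap.hp_nat D H R hR1 hcD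
  -- the general statement on the zeros of the Hilbert polynomial
  have key1 : ∀ P : ℝ[X], IsHilbertPolynomial 𝒜 P →
      (∀ ρ : ℂ, aeval ρ P = 0 → (ρ * (ρ + ((b' + 1 : ℕ) : ℂ))).re ≤ (((b' + 1 : ℕ) : ℝ) + 1) / 2) →
      ∀ n : ℕ, (n + (b' + 1) - 1).choose n ≤ Module.finrank k (𝒜 n) := by
    intro P hPP hz n
    obtain ⟨N₁, hN₁⟩ := hPP
    have hPeq : P = Pool.Agent.Q86.Gap.hp D R := by
      apply Polynomial.eq_of_infinite_eval_eq
      have : Set.range (fun i : ℕ => ((i + N₁ : ℕ) : ℝ)) ⊆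
          {x | P.eval x = (Pool.Agent.Q86.Gap.hp D R).eval x} := by
        rintro _ ⟨i, rfl⟩
        change P.eval _ = _
        rw [← hN₁ (i + N₁) (by omega), hnat (i + N₁)]
        simp [hH]
      refine Set.Infinite.mono this (Set.infinite_range_of_injective ?_)
      intro i j hij
      have h2 : ((i + N₁ : ℕ) : ℝ) = ((j + N₁ : ℕ) : ℝ) := hij
      have h3 : (i + N₁ : ℕ) = j + N₁ := by exact_mod_cast h2
      omega
    rcases Nat.eq_zero_or_pos n with hn | hn
    · subst hn
      rw [h0, Nat.choose_zero_right]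
    have hstrip := Pool.Agent.Q86.Gap.strip n b' D (Pool.Agent.Q86.Gap.hp D R)
      (by
        have := hnat 0
        rw [hH0] at this
        simpa using this)
      (by
        rw [hnat n]
        simp [hH])
      (fun m h1 h2 => Pool.Agent.Q86.Gap.hp_neg D R m h1 (by omega))
      (by
        intro x
        rw [← Pool.Agent.Q86.Gap.hp_symm D R hR2 x]
        congr 2
        have : ((R.natDegree + (b' + 1) : ℕ) : ℝ) = ((D + 1 : ℕ) : ℝ) := by rw [hc]
        push_cast at this
        linarith)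
      (by
        intro ρ hρ
        rw [← hPeq] at hρ
        have h1 := hz ρ hρ
        push_cast at h1
        refine h1.trans ?_
        have h2 : (1 : ℝ) ≤ n := by exact_mod_cast hn
        have h3 : (0 : ℝ) ≤ b' := Nat.cast_nonneg b'
        nlinarith)
    rw [hnat n] at hstrip
    have h5 : ((n + b').choose b' : ℤ) ≤ H n := by exact_mod_cast hstrip
    have h6 : (n + b').choose b' ≤ Module.finrank k (𝒜 n) := by
      have : ((n + b').choose b' : ℤ) ≤ (Module.finrank k (𝒜 n) : ℤ) := h5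
      exact_mod_cast this
    have h7 : n + (b' + 1) - 1 = n + b' := by omega
    rw [h7, Nat.choose_symm_add]
    exact h6
  -- the numerator
  have key2 : (∀ ζ : ℂ, aeval ζ R = 0 → ζ.re ≤ 1) → b' + 1 ≤ Module.finrank k (𝒜 1) := by
    intro hz
    have h1 := Pool.Agent.Q86.Gap.coeff_eq D H R hR1 1
    rw [Finset.sum_range_succ, Finset.sum_range_one, hR0] at h1
    have h2 : ((1 - 0 + D).choose D : ℤ) = D + 1 := by
      rw [show 1 - 0 + D = D + 1 by omega, Nat.choose_succ_self_right]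
      push_cast
      ring
    have h3 : ((1 - 1 + D).choose D : ℤ) = 1 := by
      rw [show 1 - 1 + D = D by omega, Nat.choose_self]
      rfl
    rw [h2, h3, one_mul, mul_one] at h1
    have h4 : -(R.natDegree : ℤ) ≤ R.coeff 1 := by
      rcases Nat.eq_zero_or_pos R.natDegree with h5 | h5
      · rw [h5, coeff_eq_zero_of_natDegree_lt (by omega)]
        simp
      · exact Pool.Agent.Q86.Gap.first_coeff R hR2 hR0 hz h5
    have h6 : ((Module.finrank k (𝒜 1) : ℕ) : ℤ) = D + 1 + R.coeff 1 := h1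
    omega
  refine ⟨key1, ?_, ?_, ?_⟩
  · intro P hPP hz
    refine key1 P hPP fun ρ hρ => ?_
    obtain ⟨h1, h2⟩ := hz ρ hρ
    rw [Complex.mul_re, Complex.add_re, Complex.add_im, Complex.natCast_re, Complex.natCast_im,
      add_zero]
    have h3 : (0 : ℝ) ≤ ((b' + 1 : ℕ) : ℝ) := Nat.cast_nonneg _
    nlinarith [mul_self_nonneg ρ.im]
  · intro R' hR' hz
    rw [hHS, hR1] at hR'
    have h1 : R' = R := (Polynomial.coe_injective ℤ hR').symm
    rw [h1] at hz
    exact key2 hz
  · intro m c A B _ hB hAB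
    rw [hHS] at hAB
    exact key2 fun ζ hζ => Pool.Agent.Q86.Gap.ci_zeros A B hB H (D + 1) R hR1 hAB ζ hζ

end Pool.Agent.Results.MP_954e53_ag.CanonicalStrip
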