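import Pool.Agent.Q86.Gap4

/-!
# Gorenstein section rings with negative `a`-invariant: the degrees without sections

For a Gorenstein section ring `S` of dimension `d` with `a(S) = a < 0`, in every characteristic and
without any condition on the singularities, the number of the degrees `n` with `S_n = 0` and the
number of the maximal intervals of such degrees which have odd length add up to at most
`(a + d) / 2`. Hence `S_n ≠ 0` for `n ≥ 4 ⌊(a + d) / 4⌋`, and `S_n ≠ 0` for `n ≥ 3` if `a + d ≤ 7`,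
for example if `d ≤ 8`. In the first cases `a + d = 4, 5` that are not covered by the theorem
`SmallDimension` one has `S_1 ≠ 0` if the multiplicity is small.

Proof: `dim S_n = P(n)` for all `n ≥ 0` with a polynomial `P` of degree `d - 1`, which satisfies
`P(a - n) = ± P(n)` and vanishes at `-1, ..., a + 1`. Every degree `n` with `S_n = 0` is a zero of
`P`, and so is `a - n`; every maximal interval of odd length contains one more zero of `P` in its
neighbourhood, as the values of `P` on both sides of it are positive.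
-/

set_option autoImplicit false

universe u

namespace Pool.Agent.Results.MP_954e53_ag.Gaps

open Filter Topology

variable {k S : Type u} [Field k] [CommRing S] [Algebra k S] (𝒜 : ℕ → Submodule k S)

/-- The sheaf `O(1)` is invertible on `Proj S`: for every homogeneous prime ideal which does not
contain all elements of positive degree there are elements of two consecutive degrees outside of it.
(This holds if `S` is the section ring of an ample invertible sheaf `L`, since `L ^ n` is generated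
by its sections for large `n`.) -/
def IsInvertible [GradedAlgebra 𝒜] : Prop :=
  ∀ 𝔭 : Ideal S, 𝔭.IsPrime → 𝔭.IsHomogeneous 𝒜 → (∃ n, 0 < n ∧ ∃ x ∈ 𝒜 n, x ∉ 𝔭) →
    ∃ n, (∃ x ∈ 𝒜 n, x ∉ 𝔭) ∧ ∃ y ∈ 𝒜 (n + 1), y ∉ 𝔭

/-- The graded ring `S` is Gorenstein: the elements `θ 1, ..., θ d`, homogeneous of positive degrees
`e 1, ..., e d`, form a homogeneous system of parameters (the ideal `(θ)` contains all elements of
large degree) and a regular sequence, and the socle of `S / (θ)` is a line, generated by the class of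
an element of degree `σ`. So `d` is the dimension of `S` and `σ - ∑ e j` is the `a`-invariant. -/
structure IsGorenstein {d : ℕ} (e : Fin d → ℕ) (θ : Fin d → S) (σ : ℕ) : Prop where
  pos : ∀ j, 0 < e j
  mem : ∀ j, θ j ∈ 𝒜 (e j)
  regular : ∀ (j : Fin d) (x : S), θ j * x ∈ Ideal.span (θ '' {i | i < j}) →
    x ∈ Ideal.span (θ '' {i | i < j})
  parameters : ∃ N, ∀ n, N ≤ n → ∀ x ∈ 𝒜 n, x ∈ Ideal.span (Set.range θ)
  socle : ∃ s ∈ 𝒜 σ, s ∉ Ideal.span (Set.range θ) ∧
    ∀ x, (∀ n, 0 < n → ∀ y ∈ 𝒜 n, x * y ∈ Ideal.span (Set.range θ)) ↔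
      ∃ c : k, x - c • s ∈ Ideal.span (Set.range θ)

/-- The gaps: the degrees `n` with `S_n = 0`. -/
def gaps : Set ℕ := {n | 𝒜 n = ⊥}

/-- The degrees `n` with `S_n ≠ 0` which are followed by a maximal interval
`n + 1, ..., n + l` of gaps of odd length `l`. -/
def oddRuns : Set ℕ :=
  {n | 𝒜 n ≠ ⊥ ∧ ∃ l, Odd l ∧ (∀ i, 1 ≤ i → i ≤ l → 𝒜 (n + i) = ⊥) ∧ 𝒜 (n + l + 1) ≠ ⊥}

/-- `μ` is the multiplicity of the graded ring `S` of dimension `d`:
`dim S_n ~ μ n ^ (d - 1) / (d - 1)!`. -/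
def IsMultiplicity (d : ℕ) (μ : ℝ) : Prop :=
  Tendsto (fun n : ℕ => ((d - 1).factorial : ℝ) * (Module.finrank k (𝒜 n) : ℝ) / (n : ℝ) ^ (d - 1))
    atTop (𝓝 μ)

/-- Let `S = ⨁ S_n` be a noetherian graded domain over an arbitrary field `k = S_0`, with
finite-dimensional `S_n`, such that `O(1)` is invertible on `Proj S`, for example the section ring
of an ample invertible sheaf on a projective variety. Suppose that `S` is Gorenstein of dimension `d`
with negative `a`-invariant `a`. Then: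
(1) the number of gaps and the number of maximal intervals of gaps of odd length are finite and add
up to at most `(a + d) / 2`;
(2) `S_n ≠ 0` for all `n ≥ 4 ⌊(a + d) / 4⌋`;
(3) if `a + d ≤ 7` then `S_n ≠ 0` for all `n ≥ 3`;
(4) if `a + d = 4` and the multiplicity is less than `(d - 1) (d - 4) / 2`, or if `a + d = 5` and the
multiplicity is less than `(d - 1) (d - 2)`, then `S_1 ≠ 0`. -/
theorem result (k S : Type u) [Field k] [CommRing S] [IsDomain S] [IsNoetherianRing S]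
    [Algebra k S] (𝒜 : ℕ → Submodule k S) [GradedAlgebra 𝒜]
    (h0 : Module.finrank k (𝒜 0) = 1) (hfin : ∀ n, Module.Finite k (𝒜 n))
    (hL : IsInvertible 𝒜) (d : ℕ) (e : Fin d → ℕ) (θ : Fin d → S) (σ : ℕ)
    (hG : IsGorenstein 𝒜 e θ σ) (a : ℤ) (ha : a = σ - ∑ j, (e j : ℤ)) (ha0 : a < 0) :
    ((gaps 𝒜).Finite ∧ (oddRuns 𝒜).Finite ∧
      2 * (((gaps 𝒜).ncard : ℤ) + (oddRuns 𝒜).ncard) ≤ a + d) ∧
    (∀ n : ℕ, 4 * ((a + d) / 4) ≤ n → 𝒜 n ≠ ⊥) ∧
    (a + d ≤ 7 → ∀ n : ℕ, 3 ≤ n → 𝒜 n ≠ ⊥) ∧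
    (∀ μ : ℝ, IsMultiplicity 𝒜 d μ →
      (a + d = 4 → μ < ((d : ℝ) - 1) * (d - 4) / 2 → 𝒜 1 ≠ ⊥) ∧
      (a + d = 5 → μ < ((d : ℝ) - 1) * (d - 2) → 𝒜 1 ≠ ⊥)) := by
  classical
  obtain ⟨N, hN⟩ := hG.parameters
  obtain ⟨s, hs, hsI, hsoc⟩ := hG.socle
  have hd : Pool.Agent.Q86.GS.chain θ d = Ideal.span (Set.range θ) := by
    unfold Pool.Agent.Q86.GS.chain
    have : {i : Fin d | (i : ℕ) < d} = Set.univ := by
      ext i
      simp
    rw [this, Set.image_univ]
  have hreg : ∀ (j : Fin d) (x : S), θ j * x ∈ Pool.Agent.Q86.GS.chain θ j →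
      x ∈ Pool.Agent.Q86.GS.chain θ j := hG.regular
  have hθ0 : ∀ j, θ j ≠ 0 := by
    intro j hj
    apply hsI
    have h1 : (1 : S) ∈ Pool.Agent.Q86.GS.chain θ j := hreg j 1 (by
      rw [hj, zero_mul]
      exact Ideal.zero_mem _)
    have h2 : Pool.Agent.Q86.GS.chain θ j ≤ Ideal.span (Set.range θ) :=
      Ideal.span_mono (Set.image_subset_range _ _)
    have h3 := Ideal.mul_mem_left _ s (h2 h1)
    rwa [mul_one] at h3
  obtain ⟨P, N', hP⟩ := Pool.Agent.Q86.GS.evPoly_hf hfin hL ⊥ (Ideal.IsHomogeneous.bot 𝒜)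
  have hP' : ∀ n, N' ≤ n → (Module.finrank k (𝒜 n) : ℚ) = P.eval (n : ℚ) := by
    intro n hn
    rw [← hP n hn, Pool.Agent.Q86.GS.hf_bot, Int.cast_natCast]
  rw [← hd] at hN hsI hsoc
  obtain ⟨R, hR1, hR2, hR3, hR4⟩ := Pool.Agent.Q86.GS.exists_numerator hfin h0 hG.pos hG.mem hθ0
    hreg hN hs hsI (fun x hx => (hsoc x).1 hx) P N' hP'
  set H : ℕ → ℤ := fun n => (Module.finrank k (𝒜 n) : ℤ) with hH
  have hc : (R.natDegree : ℤ) = a + d := by
    have h1 : (R.natDegree : ℤ) + ((∑ j, e j : ℕ) : ℤ) = σ + d := by exact_mod_cast hR4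
    push_cast at h1
    linarith
  obtain ⟨D, rfl⟩ : ∃ D, d = D + 1 := ⟨d - 1, by omega⟩
  have hcD : R.natDegree ≤ D := by
    push_cast at hc
    omega
  have hH0 : H 0 = 1 := by
    change ((Module.finrank k (𝒜 0) : ℕ) : ℤ) = 1
    rw [h0]
    rfl
  have hnn : ∀ n, 0 ≤ H n := fun n => Int.natCast_nonneg _
  have hbot : ∀ n, H n = 0 ↔ 𝒜 n = ⊥ := by
    intro n
    haveI := hfin n
    change ((Module.finrank k (𝒜 n) : ℕ) : ℤ) = 0 ↔ _
    rw [Int.natCast_eq_zero, Submodule.finrank_eq_zero]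
  have hcount := Pool.Agent.Q86.Gap.count (P := Pool.Agent.Q86.Gap.hp D R) (h := H) hcD
    (Pool.Agent.Q86.Gap.hp_natDegree D R) (by rw [hH0]; exact one_ne_zero) hnn
    (Pool.Agent.Q86.Gap.hp_nat D H R hR1 hcD)
    (fun m h1 h2 => Pool.Agent.Q86.Gap.hp_neg D R m h1 h2)
    (Pool.Agent.Q86.Gap.hp_symm D R hR2)
  have hset1 : {n | H n = 0} = gaps 𝒜 := by
    ext n
    exact hbot n
  have hset2 : Pool.Agent.Q86.Gap.oddRuns H = oddRuns 𝒜 := by
    ext n
    simp only [Pool.Agent.Q86.Gap.oddRuns, oddRuns, Set.mem_setOf_eq, ne_eq, hbot]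
  rw [hset1, hset2] at hcount
  obtain ⟨hf1, hf2, hle, hodd⟩ := hcount
  have hadd : ∀ m n, ¬ 𝒜 m = ⊥ → ¬ 𝒜 n = ⊥ → ¬ 𝒜 (m + n) = ⊥ := by
    intro m n hm hn h
    obtain ⟨x, hx, hx0⟩ := (Submodule.ne_bot_iff _).1 hm
    obtain ⟨y, hy, hy0⟩ := (Submodule.ne_bot_iff _).1 hn
    have h1 : x * y ∈ 𝒜 (m + n) := SetLike.mul_mem_graded hx hy
    rw [h, Submodule.mem_bot] at h1
    rcases mul_eq_zero.1 h1 with h2 | h2
    · exact hx0 h2
    · exact hy0 h2
  have hsg : ∀ n, 𝒜 n = ⊥ → n + 1 ≤ 2 * (gaps 𝒜).ncard := fun n hn =>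
    Pool.Agent.Q86.Gap.semigroup (p := fun n => 𝒜 n = ⊥) hadd hf1 n hn
  have h0' : 𝒜 0 ≠ ⊥ := by
    rw [Ne, ← hbot, hH0]
    exact one_ne_zero
  have h1gap : ∀ n, 𝒜 n = ⊥ → 𝒜 1 = ⊥ := by
    intro n hn
    by_contra h1
    have : ∀ m, 𝒜 m ≠ ⊥ := by
      intro m
      induction m with
      | zero => exact h0'
      | succ m ih => exact hadd m 1 ih h1
    exact this n hn
  refine ⟨⟨hf1, hf2, ?_⟩, ?_, ?_, ?_⟩
  · rw [← hc]
    exact_mod_cast hle
  · intro n hn h
    have h1 := hsg n h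
    rw [← hc] at hn
    rcases Nat.even_or_odd (gaps 𝒜).ncard with h2 | h2
    · obtain ⟨m, hm⟩ := h2
      omega
    · have h3 := hodd h2
      obtain ⟨m, hm⟩ := h2
      omega
  · intro h7 n hn h
    rw [← hc] at h7
    have hg1 : 1 ∈ gaps 𝒜 := h1gap n h
    have hgn : n ∈ gaps 𝒜 := h
    have hpair : ({1, n} : Set ℕ).ncard ≤ (gaps 𝒜).ncard :=
      Set.ncard_le_ncard (by
        rintro x (rfl | rfl)
        · exact hg1
        · exact hgn) hf1
    rw [Set.ncard_pair (by omega)] at hpair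
    have hg2 : (gaps 𝒜).ncard = 2 := by
      rcases Nat.even_or_odd (gaps 𝒜).ncard with h2 | h2
      · obtain ⟨m, hm⟩ := h2
        omega
      · have h3 := hodd h2
        omega
    have hgeq : ({1, n} : Set ℕ) = gaps 𝒜 :=
      Set.eq_of_subset_of_ncard_le (by
        rintro x (rfl | rfl)
        · exact hg1
        · exact hgn) (by rw [Set.ncard_pair (by omega), hg2]) hf1
    have hng : ∀ m, m ≠ 1 → m ≠ n → 𝒜 m ≠ ⊥ := by
      intro m h1 h2 h3
      have h4 : m ∈ gaps 𝒜 := h3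
      rw [← hgeq] at h4
      rcases h4 with h4 | h4
      · exact h1 h4
      · exact h2 h4
    have ho0 : 0 ∈ oddRuns 𝒜 := by
      refine ⟨h0', 1, odd_one, ?_, ?_⟩
      · intro i h1 h2
        obtain rfl : i = 1 := by omega
        exact hg1
      · exact hng _ (by omega) (by omega)
    have hon : (n - 1) ∈ oddRuns 𝒜 := by
      refine ⟨hng _ (by omega) (by omega), 1, odd_one, ?_, ?_⟩
      · intro i h1 h2
        obtain rfl : i = 1 := by omega
        rw [show n - 1 + 1 = n by omega]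
        exact h
      · exact hng _ (by omega) (by omega)
    have hpair2 : ({0, n - 1} : Set ℕ).ncard ≤ (oddRuns 𝒜).ncard :=
      Set.ncard_le_ncard (by
        rintro x (rfl | rfl)
        · exact ho0
        · exact hon) hf2
    rw [Set.ncard_pair (by omega)] at hpair2
    omega
  · intro μ hμ
    have hlim := Pool.Agent.Q86.Gap.tendsto_hp D H R hR1 hcD
    have hμ' : μ = ((R.eval 1 : ℤ) : ℝ) := by
      refine tendsto_nhds_unique hμ ?_
      refine hlim.congr fun n => ?_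
      rw [Nat.add_sub_cancel]
      congr 2
    constructor
    · intro h4 hlt h1
      obtain ⟨h5, -⟩ := Pool.Agent.Q86.Gap.small D H R hR1 hR2 hH0 ((hbot 1).2 h1) (hnn 2)
      have h6 : (D : ℤ) * (D - 3) ≤ 2 * R.eval 1 := h5 (by omega)
      have h7 : ((D : ℝ)) * (D - 3) ≤ 2 * ((R.eval 1 : ℤ) : ℝ) := by exact_mod_cast h6
      rw [hμ'] at hlt
      push_cast at hlt
      linarith
    · intro h4 hlt h1
      obtain ⟨-, h5⟩ := Pool.Agent.Q86.Gap.small D H R hR1 hR2 hH0 ((hbot 1).2 h1) (hnn 2)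
      have h6 : (D : ℤ) * (D - 1) ≤ R.eval 1 := h5 (by omega)
      have h7 : ((D : ℝ)) * (D - 1) ≤ ((R.eval 1 : ℤ) : ℝ) := by exact_mod_cast h6
      rw [hμ'] at hlt
      push_cast at hlt
      linarith

end Pool.Agent.Results.MP_954e53_ag.Gaps
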