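import Pool.Agent.Q86.GS

/-!
# Gorenstein section rings with `a(S) + dim S ≤ 3`: sections of the generating sheaf

A purely algebraic proof, for arbitrary singularities and in every characteristic, that a Gorenstein
section ring `S` with `a(S) < 0` and `a(S) + dim S ≤ 3` has nonzero elements of degree one. In
particular this holds for all Gorenstein section rings `S` with `a(S) < 0` and `dim S ≤ 4`.

Idea of the proof. Since `O(1)` is invertible on `Proj S`, the Hilbert function of `S` is a
polynomial in large degrees (noetherian induction on homogeneous ideals: if `x` and `y` are elements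
of degrees `n` and `n + 1` outside a prime ideal `𝔭`, then the Hilbert function `h` of `S / 𝔭` has
the eventually polynomial differences `h(t) - h(t - n)` and `h(t) - h(t - n - 1)`, and so
`h(t) - h(t - 1)` is eventually polynomial). So the Hilbert series of `S` is `R(t) / (1 - t)^d` with
an integral polynomial `R`, `d = dim S`, `R(0) = 1` and `R(1) > 0`. As `S` is Gorenstein, `R` is
symmetric of degree `a(S) + d ≤ 3`, and `dim S_1 = d + R_1`. For the degrees `0, 1, 2, 3` one has
`R_1 = 0`, `R_1 = 1`, `2 + R_1 > 0`, `2 + 2 R_1 > 0`.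
-/

set_option autoImplicit false

universe u

namespace Pool.Agent.Results.MP_954e53_ag.SmallDimension

variable {k S : Type u} [Field k] [CommRing S] [Algebra k S] (𝒜 : ℕ → Submodule k S)

/-- The sheaf `O(1)` is invertible on `Proj S`: for every homogeneous prime ideal which does not
contain all elements of positive degree there are elements of two consecutive degrees outside of it.
(This holds if `S` is the section ring of an ample invertible sheaf `L`, since `L ^ n` is generated
by its sections for large `n`.) -/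
def IsInvertible [GradedAlgebra 𝒜] : Prop :=
  ∀ 𝔭 : Ideal S, 𝔭.IsPrime → 𝔭.IsHomogeneous 𝒜 → (∃ n, 0 < n ∧ ∃ x ∈ 𝒜 n, x ∉ 𝔭) →
    ∃ n, (∃ x ∈ 𝒜 n, x ∉ 𝔭) ∧ ∃ y ∈ 𝒜 (n + 1), y ∉ 𝔭

/-- The graded ring `S` is Gorenstein: the elements `θ 1, ..., θ d`, homogeneous of positive degrees
`e 1, ..., e d`, form a homogeneous system of parameters (the ideal `(θ)` contains all elements of
large degree) and a regular sequence, and the socle of `S / (θ)` is a line, generated by the class of
an element of degree `σ`. So `d` is the dimension of `S` and `σ - ∑ e j` is the `a`-invariant. -/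
structure IsGorenstein {d : ℕ} (e : Fin d → ℕ) (θ : Fin d → S) (σ : ℕ) : Prop where
  pos : ∀ j, 0 < e j
  mem : ∀ j, θ j ∈ 𝒜 (e j)
  regular : ∀ (j : Fin d) (x : S), θ j * x ∈ Ideal.span (θ '' {i | i < j}) →
    x ∈ Ideal.span (θ '' {i | i < j})
  parameters : ∃ N, ∀ n, N ≤ n → ∀ x ∈ 𝒜 n, x ∈ Ideal.span (Set.range θ)
  socle : ∃ s ∈ 𝒜 σ, s ∉ Ideal.span (Set.range θ) ∧
    ∀ x, (∀ n, 0 < n → ∀ y ∈ 𝒜 n, x * y ∈ Ideal.span (Set.range θ)) ↔
      ∃ c : k, x - c • s ∈ Ideal.span (Set.range θ)

/-- Let `S = ⨁ S_n` be a noetherian graded domain over an arbitrary field `k = S_0`, with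
finite-dimensional `S_n`, such that `O(1)` is invertible on `Proj S`, for example the section ring
of an ample invertible sheaf on a projective variety. Suppose that `S` is Gorenstein of dimension `d`
with `a`-invariant `a`, and that `a + d ≤ 3`; for example, `a < 0` and `d ≤ 4`. Then
`dim S_1 ≥ -a` and `dim S_1 ≥ d - 1`. (There is no assumption on the singularities of `S` and on the
characteristic.) If `a < 0` then `S_1 ≠ 0`; by Hyry and Smith this is equivalent to
`core I_N = graded core I_N` for all large `N`. -/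
theorem result (k S : Type u) [Field k] [CommRing S] [IsDomain S] [IsNoetherianRing S]
    [Algebra k S] (𝒜 : ℕ → Submodule k S) [GradedAlgebra 𝒜]
    (h0 : Module.finrank k (𝒜 0) = 1) (hfin : ∀ n, Module.Finite k (𝒜 n))
    (hL : IsInvertible 𝒜) (d : ℕ) (e : Fin d → ℕ) (θ : Fin d → S) (σ : ℕ)
    (hG : IsGorenstein 𝒜 e θ σ) (a : ℤ) (ha : a = σ - ∑ j, (e j : ℤ)) (had : a + d ≤ 3) :
    (-a ≤ Module.finrank k (𝒜 1) ∧ (d : ℤ) - 1 ≤ Module.finrank k (𝒜 1)) ∧
      (a < 0 → 𝒜 1 ≠ ⊥) := by
  classical
  obtain ⟨N, hN⟩ := hG.parameters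
  obtain ⟨s, hs, hsI, hsoc⟩ := hG.socle
  have hd : Pool.Agent.Q86.GS.chain θ d = Ideal.span (Set.range θ) := by
    unfold Pool.Agent.Q86.GS.chain
    have : {i : Fin d | (i : ℕ) < d} = Set.univ := by
      ext i
      simp
    rw [this, Set.image_univ]
  have hreg : ∀ (j : Fin d) (x : S), θ j * x ∈ Pool.Agent.Q86.GS.chain θ j →
      x ∈ Pool.Agent.Q86.GS.chain θ j := hG.regular
  have hθ0 : ∀ j, θ j ≠ 0 := by
    intro j hj
    apply hsI
    have h1 : (1 : S) ∈ Pool.Agent.Q86.GS.chain θ j := hreg j 1 (by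
      rw [hj, zero_mul]
      exact Ideal.zero_mem _)
    have h2 : Pool.Agent.Q86.GS.chain θ j ≤ Ideal.span (Set.range θ) :=
      Ideal.span_mono (Set.image_subset_range _ _)
    have h3 := Ideal.mul_mem_left _ s (h2 h1)
    rwa [mul_one] at h3
  obtain ⟨P, N', hP⟩ := Pool.Agent.Q86.GS.evPoly_hf hfin hL ⊥ (Ideal.IsHomogeneous.bot 𝒜)
  have hP' : ∀ n, N' ≤ n → (Module.finrank k (𝒜 n) : ℚ) = P.eval (n : ℚ) := by
    intro n hn
    rw [← hP n hn, Pool.Agent.Q86.GS.hf_bot, Int.cast_natCast]
  rw [← hd] at hN hsI hsoc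
  have hmain := Pool.Agent.Q86.GS.main hfin h0 hG.pos hG.mem hθ0 hreg hN hs hsI
    (fun x hx => (hsoc x).1 hx) P N' hP' (by
      have h1 : (∑ j, (e j : ℤ)) = ((∑ j, e j : ℕ) : ℤ) := by push_cast; rfl
      rw [h1] at ha
      omega)
  have h1 : -a ≤ Module.finrank k (𝒜 1) := by
    rw [ha]
    have := hmain.1
    linarith
  refine ⟨⟨h1, ?_⟩, ?_⟩
  · have := hmain.2
    omega
  · intro ha0 hbot
    rw [hbot, finrank_bot] at h1
    push_cast at h1
    omega

end Pool.Agent.Results.MP_954e53_ag.SmallDimension
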